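import Pool.Agent.Helper13.FS.StageA

/-!
# The stage lemma with a path event

As `Helper13.FS.stage`, but only pairs of paths which both satisfy a path event `G` (start point,
letters) count in the return probability. The hypothesis on `G`: for every near-invariant `v` the
Metropolis mass of the complement of `G` is at most `1 / 8`.
-/

set_option autoImplicit false
set_option linter.unusedSectionVars false

namespace Pool.Agent.Helper73.FS

open Finset Pool.Agent.Helper35.MP Pool.Agent.Helper13.FS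

variable {X Lam : Type*} [Fintype X] [DecidableEq X] [Fintype Lam] [DecidableEq Lam]

/-- `Helper35.MP.metropolis` with a path event `G` -/
theorem metropolisG (L : Letters X Lam) {θ : ℝ} (hθ : 0 < θ) {M : ℕ} (S : Fin M → Lam → ℝ)
    (hS : ∀ k, Wt L θ (S k)) (v : X → ℝ) (hv : ∀ x, 0 ≤ v x) (hv1 : ∑ x, v x ^ 2 = 1)
    (d : Fin M → ℝ) (hd : ∀ k, ∑ l, S k l * ∑ x, (v x - v (L.act l x)) ^ 2 ≤ d k)
    (J : Fin M → Bool) (Bad : (Fin M → Lam) → Prop) [DecidablePred Bad]
    (hBad : ∀ ls ls' : Fin M → Lam, (∀ k, J k = true → ls k = ls' k) → (Bad ls ↔ Bad ls'))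
    (A : X → Prop) [DecidablePred A] (hA : 3 / 4 ≤ ∑ x with A x, v x ^ 2)
    (G : X → (Fin M → Lam) → Prop) [∀ x, DecidablePred (G x)]
    (hG : ∑ x, ∑ ls : Fin M → Lam with ¬ G x ls,
      v x ^ 2 * pw L M (mets L (fun y => v y ^ 2) S) ls x ≤ 1 / 8)
    (hb : ∑ ls : Fin M → Lam with Bad ls, ∏ k, S k (ls k) ≤
      Real.exp (- (4 * (4 * (1 + 1 / θ) * (∑ k, if J k then d k else 0) + 2)))) :
    1 / 4 * Real.exp (- (4 * (4 * (1 + 1 / θ) * ∑ k, d k + 1))) ≤
      ∑ x with A x, v x ^ 2 * ∑ ls : Fin M → Lam with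
        (¬ Bad ls ∧ G x ls ∧ 0 < v (pos L M ls x)), ∏ k, S k (ls k) := by
  classical
  have hm : ∀ x, 0 ≤ (fun y => v y ^ 2) x := fun x => sq_nonneg _
  have hmets : ∀ k x l, 0 ≤ mets L (fun y => v y ^ 2) S k x l :=
    fun k x l => met_nn L _ hm (hS k) x l
  have hd0 : ∀ k, 0 ≤ d k := fun k => le_trans
    (sum_nonneg fun l _ => mul_nonneg ((hS k).nn l) (sum_nonneg fun x _ => sq_nonneg _)) (hd k)
  obtain ⟨Q, hQ⟩ : ∃ Q : X × (Fin M → Lam) → ℝ, ∀ w, Q w =
      v w.1 ^ 2 * pw L M (mets L (fun y => v y ^ 2) S) w.2 w.1 := ⟨_, fun _ => rfl⟩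
  have hQ0 : ∀ w, 0 ≤ Q w := fun w => by
    rw [hQ]
    exact mul_nonneg (sq_nonneg _) (pw_nn L M _ _ _ hmets)
  have hQx : ∀ x, ∑ ls, Q (x, ls) = v x ^ 2 := by
    intro x
    calc ∑ ls, Q (x, ls) = ∑ ls, v x ^ 2 * pw L M (mets L (fun y => v y ^ 2) S) ls x :=
          sum_congr rfl fun ls _ => hQ (x, ls)
      _ = v x ^ 2 := by
          rw [← mul_sum, pw_one L M (mets L (fun y => v y ^ 2) S) x
            fun k x => met_one L _ (hS k) x, mul_one]
  have hQ1 : ∑ w, Q w = 1 := by
    rw [Fintype.sum_prod_type, sum_congr rfl fun x _ => hQx x, hv1]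
  -- the event `G`
  have hGQ : ∑ w with ¬ G w.1 w.2, Q w ≤ 1 / 8 := by
    refine le_trans (le_of_eq ?_) hG
    rw [sum_filter, Fintype.sum_prod_type]
    apply sum_congr rfl
    intro x _
    rw [sum_filter]
    apply sum_congr rfl
    intro ls _
    rw [hQ]
  -- the bad patterns
  have hbad : ∑ w with Bad w.2, Q w ≤ 1 / 4 := by
    by_contra hcon
    push Not at hcon
    have h1 := compare L hθ S hS v hv hv1 d hd J (univ.filter fun w : X × (Fin M → Lam) =>
      Bad w.2) (by rw [← sum_congr rfl fun w _ => hQ w]; linarith)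
    rw [← sum_congr rfl fun w _ => hQ w] at h1
    obtain ⟨q, hq⟩ : ∃ q, q = ∑ w with Bad w.2, Q w := ⟨_, rfl⟩
    obtain ⟨D, hD⟩ : ∃ D, D = 4 * (1 + 1 / θ) * (∑ k, if J k then d k else 0) := ⟨_, rfl⟩
    have hD0 : 0 ≤ D := by
      rw [hD]
      apply mul_nonneg (by positivity)
      apply sum_nonneg
      intro k _
      split_ifs
      · exact hd0 k
      · exact le_rfl
    rw [← hq, ← hD] at h1
    rw [← hq] at hcon
    rw [← hD] at hb
    have h2 : ∑ w : X × (Fin M → Lam) with Bad w.2, v w.1 ^ 2 *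
        pw L M (mix L (fun y => v y ^ 2) S J) w.2 w.1 =
        ∑ ls : Fin M → Lam with Bad ls, ∏ k, S k (ls k) := by
      rw [sum_filter, Fintype.sum_prod_type]
      have h3 : ∀ x, ∑ ls : Fin M → Lam, (if Bad ls then v x ^ 2 *
          pw L M (mix L (fun y => v y ^ 2) S J) ls x else 0) = v x ^ 2 *
          ∑ ls : Fin M → Lam with Bad ls, ∏ k, S k (ls k) := by
        intro x
        have h4 := path_pat L (fun y => v y ^ 2) M S hS J (fun ls => if Bad ls then 1 else 0)
          (fun ls ls' h => by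
            by_cases h5 : Bad ls
            · rw [if_pos h5, if_pos ((hBad ls ls' h).1 h5)]
            · rw [if_neg h5, if_neg fun h6 => h5 ((hBad ls ls' h).2 h6)]) x
        rw [sum_filter]
        calc ∑ ls : Fin M → Lam, (if Bad ls then v x ^ 2 *
              pw L M (mix L (fun y => v y ^ 2) S J) ls x else 0) =
              v x ^ 2 * ∑ ls : Fin M → Lam, pw L M (mix L (fun y => v y ^ 2) S J) ls x *
                (if Bad ls then 1 else 0) := by
              rw [mul_sum]
              apply sum_congr rfl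
              intro ls _
              split_ifs <;> ring
          _ = _ := by
              rw [h4]
              congr 1
              apply sum_congr rfl
              intro ls _
              split_ifs <;> ring
      rw [sum_congr rfl fun x _ => h3 x, ← sum_mul, hv1, one_mul]
    rw [h2] at h1
    have h3 := h1.trans hb
    have hq0 : 0 < q := by linarith
    have h4 : (D + 1) / q ≤ 4 * (D + 1) := by
      rw [div_le_iff₀ hq0]
      nlinarith
    have h5 : 1 / 4 * Real.exp (- (4 * (D + 1))) < q * Real.exp (- ((D + 1) / q)) := by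
      calc 1 / 4 * Real.exp (- (4 * (D + 1))) < q * Real.exp (- (4 * (D + 1))) :=
            mul_lt_mul_of_pos_right hcon (Real.exp_pos _)
        _ ≤ q * Real.exp (- ((D + 1) / q)) :=
            mul_le_mul_of_nonneg_left (Real.exp_le_exp.2 (by linarith)) hq0.le
    have h6 : Real.exp (- (4 * (D + 2))) = Real.exp (- 4) * Real.exp (- (4 * (D + 1))) := by
      rw [← Real.exp_add]
      congr 1
      ring
    have h7 : Real.exp (- 4) ≤ 1 / 4 := by
      rw [Real.exp_neg, ← one_div]
      apply one_div_le_one_div_of_le (by norm_num)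
      linarith [Real.add_one_le_exp (4 : ℝ)]
    have h8 := mul_le_mul_of_nonneg_right h7 (Real.exp_pos (- (4 * (D + 1)))).le
    rw [h6] at h3
    linarith
  -- the good event
  obtain ⟨E, hE⟩ : ∃ E : Finset (X × (Fin M → Lam)), E = univ.filter fun w =>
      A w.1 ∧ ¬ Bad w.2 ∧ G w.1 w.2 ∧ 0 < v (pos L M w.2 w.1) := ⟨_, rfl⟩
  have hgood : 3 / 8 ≤ ∑ w ∈ E, Q w := by
    have h1 : ∑ w with A w.1, Q w = ∑ x with A x, v x ^ 2 := by
      rw [sum_filter, Fintype.sum_prod_type, sum_filter]
      apply sum_congr rfl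
      intro x _
      by_cases h : A x
      · simp only [h, if_true]
        exact hQx x
      · simp only [h, if_false]
        exact sum_const_zero
    have h2 : ∑ w with A w.1, Q w ≤ ∑ w ∈ E, Q w + (∑ w with Bad w.2, Q w +
        ∑ w with ¬ G w.1 w.2, Q w) := by
      rw [hE, sum_filter, sum_filter, sum_filter, sum_filter, ← sum_add_distrib,
        ← sum_add_distrib]
      apply sum_le_sum
      intro w _
      have hn : ∀ p : Prop, [Decidable p] → 0 ≤ (if p then Q w else 0) := by
        intro p _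
        split_ifs
        · exact hQ0 w
        · exact le_rfl
      by_cases h3 : A w.1
      · by_cases h4 : Bad w.2
        · rw [if_pos h3, if_neg fun h5 => h5.2.1 h4, if_pos h4, zero_add]
          linarith [hn (¬ G w.1 w.2)]
        · by_cases hG' : G w.1 w.2
          · rw [if_pos h3, if_neg h4, if_neg (not_not.2 hG'), add_zero, add_zero]
            by_cases h5 : 0 < v (pos L M w.2 w.1)
            · rw [if_pos ⟨h3, h4, hG', h5⟩]
            · rw [if_neg fun h6 => h5 h6.2.2.2]
              refine le_of_eq ?_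
              by_contra h6
              have h7 : Q w ≠ 0 := h6
              rw [hQ] at h7
              have h8 : 0 < v w.1 ^ 2 := (sq_nonneg _).lt_of_ne (left_ne_zero_of_mul h7).symm
              have h9 := path_supp L (fun y => v y ^ 2) hm M S w.2 w.1 h8
                (right_ne_zero_of_mul h7)
              have h10 : v (pos L M w.2 w.1) ≠ 0 := fun h11 => by
                simp only [h11] at h9
                norm_num at h9
              exact h5 ((hv _).lt_of_ne h10.symm)
          · rw [if_pos h3, if_neg fun h5 => hG' h5.2.2.1, if_neg h4, if_pos hG', zero_add,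
              zero_add]
      · rw [if_neg h3]
        exact add_nonneg (hn _) (add_nonneg (hn _) (hn _))
    rw [h1] at h2
    linarith
  have h1 := compare L hθ S hS v hv hv1 d hd (fun _ => true) E
    (by rw [← sum_congr rfl fun w _ => hQ w]; linarith)
  rw [← sum_congr rfl fun w _ => hQ w] at h1
  obtain ⟨q, hq⟩ : ∃ q, q = ∑ w ∈ E, Q w := ⟨_, rfl⟩
  obtain ⟨D, hD⟩ : ∃ D, D = 4 * (1 + 1 / θ) * ∑ k, d k := ⟨_, rfl⟩
  have hD0 : 0 ≤ D := by
    rw [hD]
    exact mul_nonneg (by positivity) (sum_nonneg fun k _ => hd0 k)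
  simp only [if_true] at h1
  rw [← hq, ← hD] at h1
  rw [← hq] at hgood
  rw [← hD]
  have hq0 : 0 < q := by linarith
  have h2 : ∑ w ∈ E, v w.1 ^ 2 * pw L M (mix L (fun y => v y ^ 2) S fun _ => true) w.2 w.1 =
      ∑ x with A x, v x ^ 2 * ∑ ls : Fin M → Lam with
        (¬ Bad ls ∧ G x ls ∧ 0 < v (pos L M ls x)), ∏ k, S k (ls k) := by
    rw [hE, sum_filter, Fintype.sum_prod_type, sum_filter]
    apply sum_congr rfl
    intro x _
    have h3 : ∀ ls, pw L M (mix L (fun y => v y ^ 2) S fun _ => true) ls x =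
        ∏ k, S k (ls k) := fun ls => by
      rw [← pw_free L M S ls x]
      congr 1
    by_cases h : A x
    · simp only [h, true_and, if_true]
      rw [mul_sum, sum_filter]
      apply sum_congr rfl
      intro ls _
      rw [h3]
    · simp only [h, false_and, if_false]
      exact sum_const_zero
  rw [h2] at h1
  refine le_trans ?_ h1
  have h4 : (D + 1) / q ≤ 4 * (D + 1) := by
    rw [div_le_iff₀ hq0]
    nlinarith
  calc 1 / 4 * Real.exp (- (4 * (D + 1))) ≤ q * Real.exp (- (4 * (D + 1))) :=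
        mul_le_mul_of_nonneg_right (by linarith) (Real.exp_pos _).le
    _ ≤ q * Real.exp (- ((D + 1) / q)) :=
        mul_le_mul_of_nonneg_left (Real.exp_le_exp.2 (by linarith)) hq0.le

/-- the probability that two paths from `x` with the same good pattern, both in `G`, end at the same
point -/
noncomputable def RRG {M : ℕ} (L : Letters X Lam) (S : Fin M → Lam → ℝ) (J : Fin M → Bool)
    (Bad : (Fin M → Lam) → Prop) [DecidablePred Bad]
    (G : X → (Fin M → Lam) → Prop) [∀ x, DecidablePred (G x)] (x : X) : ℝ :=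
  ∑ ls : Fin M → Lam, ∑ ls' : Fin M → Lam,
    if ¬ Bad ls ∧ G x ls ∧ G x ls' ∧ pos L M ls x = pos L M ls' x then w2 S J ls ls' else 0

/-- `w2` with a bad set, for a bad set which depends on the slots `J` only -/
theorem RRG_nn {M : ℕ} (L : Letters X Lam) {θ : ℝ} (S : Fin M → Lam → ℝ)
    (hS : ∀ k, Wt L θ (S k)) (J : Fin M → Bool)
    (Bad : (Fin M → Lam) → Prop) [DecidablePred Bad]
    (G : X → (Fin M → Lam) → Prop) [∀ x, DecidablePred (G x)] (x : X) :
    0 ≤ RRG L S J Bad G x := by
  unfold RRG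
  apply sum_nonneg
  intro a _
  apply sum_nonneg
  intro b _
  split_ifs
  · exact w2_nn L S hS J a b
  · exact le_rfl

/-- a start point with small `RRG` reaches a small set by paths in `G` with small probability -/
theorem reach_leG {M : ℕ} (L : Letters X Lam) {θ : ℝ} (S : Fin M → Lam → ℝ)
    (hS : ∀ k, Wt L θ (S k))
    (J : Fin M → Bool) (Bad : (Fin M → Lam) → Prop) [DecidablePred Bad]
    (G : X → (Fin M → Lam) → Prop) [∀ x, DecidablePred (G x)] (x : X) {ρ : ℝ}
    (hR : RRG L S J Bad G x ≤ ρ) (P : X → Prop) [DecidablePred P] :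
    ∑ ls : Fin M → Lam with (¬ Bad ls ∧ G x ls ∧ P (pos L M ls x)), ∏ k, S k (ls k) ≤
      (univ.filter P).card * Real.sqrt ρ := by
  have h1 : ∀ z : X, ∑ ls : Fin M → Lam, (∏ k, S k (ls k)) *
      (if ¬ Bad ls ∧ G x ls ∧ pos L M ls x = z then (1 : ℝ) else 0) ≤ Real.sqrt ρ := by
    intro z
    apply Real.le_sqrt_of_sq_le
    refine (sq_le_w2 L S hS J fun ls => if ¬ Bad ls ∧ G x ls ∧ pos L M ls x = z then (1 : ℝ)
      else 0).trans (le_trans ?_ hR)
    unfold RRG
    apply sum_le_sum
    intro a _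
    apply sum_le_sum
    intro b _
    by_cases ha : ¬ Bad a ∧ G x a ∧ pos L M a x = z
    · by_cases hb : ¬ Bad b ∧ G x b ∧ pos L M b x = z
      · rw [if_pos ha, if_pos hb, if_pos ⟨ha.1, ha.2.1, hb.2.1, ha.2.2.trans hb.2.2.symm⟩,
          mul_one, mul_one]
      · rw [if_neg hb, mul_zero, mul_zero]
        split_ifs
        · exact w2_nn L S hS J a b
        · exact le_rfl
    · rw [if_neg ha, zero_mul, mul_zero]
      split_ifs
      · exact w2_nn L S hS J a b
      · exact le_rfl
  have h2 : ∑ ls : Fin M → Lam with (¬ Bad ls ∧ G x ls ∧ P (pos L M ls x)), ∏ k, S k (ls k) =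
      ∑ z ∈ univ.filter P, ∑ ls : Fin M → Lam, (∏ k, S k (ls k)) *
      (if ¬ Bad ls ∧ G x ls ∧ pos L M ls x = z then (1 : ℝ) else 0) := by
    rw [sum_comm, sum_filter]
    apply sum_congr rfl
    intro ls _
    by_cases h : ¬ Bad ls ∧ G x ls ∧ P (pos L M ls x)
    · rw [if_pos h, sum_eq_single (pos L M ls x)]
      · rw [if_pos ⟨h.1, h.2.1, rfl⟩, mul_one]
      · intro z _ hz
        rw [if_neg fun h' => hz h'.2.2.symm, mul_zero]
      · intro h'
        exact absurd (mem_filter.2 ⟨mem_univ _, h.2.2⟩) h'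
    · rw [if_neg h, sum_eq_zero]
      intro z hz
      rw [mem_filter] at hz
      rw [if_neg, mul_zero]
      rintro ⟨h3, h4, h5⟩
      exact h ⟨h3, h4, h5 ▸ hz.2⟩
  rw [h2]
  calc _ ≤ ∑ _z ∈ univ.filter P, Real.sqrt ρ := sum_le_sum fun z _ => h1 z
    _ = _ := by rw [sum_const, nsmul_eq_mul]

/-- **The abstract stage lemma with a path event.** -/
theorem stageG (L : Letters X Lam) {θ : ℝ} (hθ : 0 < θ) (S0 : Lam → ℝ) (hS0 : Wt L θ S0)
    {M : ℕ} (S : Fin M → Lam → ℝ) (hS : ∀ k, Wt L θ (S k)) {K : ℝ} (hK0 : 0 ≤ K)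
    (hK : ∀ k l, l ≠ L.e → S k l ≤ K * S0 l)
    (J : Fin M → Bool) (Bad : (Fin M → Lam) → Prop) [DecidablePred Bad]
    (hBad : ∀ ls ls' : Fin M → Lam, (∀ k, J k = true → ls k = ls' k) → (Bad ls ↔ Bad ls'))
    (G : X → (Fin M → Lam) → Prop) [∀ x, DecidablePred (G x)]
    {η : ℝ} (t : ℕ) {ρ r : ℝ} (hρ : 0 < ρ)
    (hG : ∀ v : X → ℝ, (∀ x, 0 ≤ v x) → ∑ x, v x ^ 2 = 1 →
      (∀ k, ∑ l, S k l * ∑ x, (v x - v (L.act l x)) ^ 2 ≤ K * (η / θ)) →
      ∑ x, ∑ ls : Fin M → Lam with ¬ G x ls,
        v x ^ 2 * pw L M (mets L (fun y => v y ^ 2) S) ls x ≤ 1 / 8)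
    (hr : ∑ x, RRG L S J Bad G x ≤ r * Fintype.card X)
    (h1 : (Fintype.card Lam : ℝ) ^ t * Real.sqrt ρ <
      1 / 4 * Real.exp (-(4 * (4 * (1 + 1 / θ) * (M * (K * (η / θ))) + 1))))
    (h2 : ∑ ls : Fin M → Lam with Bad ls, ∏ k, S k (ls k) ≤
      Real.exp (-(4 * (4 * (1 + 1 / θ) * ((univ.filter fun k => J k = true).card *
        (K * (η / θ))) + 2)))) :
    ∑ x, ret L S0 t x ≤
      (Real.exp (-(η * t)) + 4 * t * Real.exp (η * t) * (r / ρ)) * Fintype.card X := by
  classical
  obtain ⟨B, hB⟩ : ∃ B : Finset X, B = univ.filter fun x => ρ < RRG L S J Bad G x := ⟨_, rfl⟩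
  obtain ⟨V, hV⟩ : ∃ V : Finset X, V = univ.filter fun x => Real.exp (-(η * t)) < ret L S0 t x :=
    ⟨_, rfl⟩
  have hRR0 : ∀ x, 0 ≤ RRG L S J Bad G x := fun x => RRG_nn L S hS J Bad G x
  -- Markov
  have hBc : (B.card : ℝ) ≤ r / ρ * Fintype.card X := by
    rw [div_mul_eq_mul_div, le_div_iff₀ hρ]
    refine le_trans ?_ hr
    calc (B.card : ℝ) * ρ = ∑ _x ∈ B, ρ := by rw [sum_const, nsmul_eq_mul]
      _ ≤ ∑ x ∈ B, RRG L S J Bad G x := by
          apply sum_le_sum
          intro x hx
          rw [hB, mem_filter] at hx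
          exact hx.2.le
      _ ≤ ∑ x, RRG L S J Bad G x := sum_le_univ_sum_of_nonneg fun x => hRR0 x
  -- the violating points
  have hVB : (V.card : ℝ) ≤ 4 * t * Real.exp (η * t) * B.card := by
    by_contra hcon
    push Not at hcon
    have hnear : ∀ x ∈ V, ∃ s < t, Real.exp (-(η * t)) < ret L S0 s x ∧
        θ * ∑ l, S0 l * ∑ y, (hk L S0 s x y - hk L S0 s x (L.act l y)) ^ 2 ≤
          η * ret L S0 s x := by
      intro x hx
      rw [hV, mem_filter] at hx
      exact exists_near L hθ S0 hS0 hx.2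
    choose! s hs using hnear
    -- a good start
    have hex : ∃ x ∈ V, ∑ y ∈ B, hk L S0 (s x) x y ^ 2 ≤ 1 / 4 * ret L S0 (s x) x := by
      by_contra hno
      push Not at hno
      have h3 : (V.card : ℝ) * (1 / 4) ≤
          ∑ x ∈ V, Real.exp (η * t) * ∑ i ∈ range t, ∑ y ∈ B, hk L S0 i x y ^ 2 := by
        calc (V.card : ℝ) * (1 / 4) = ∑ _x ∈ V, (1 / 4 : ℝ) := by rw [sum_const, nsmul_eq_mul]
          _ ≤ _ := by
            apply sum_le_sum
            intro x hx
            have h4 := (hs x hx).2.1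
            have h5 := hno x hx
            have h6 : ∑ y ∈ B, hk L S0 (s x) x y ^ 2 ≤
                ∑ i ∈ range t, ∑ y ∈ B, hk L S0 i x y ^ 2 :=
              single_le_sum (f := fun i => ∑ y ∈ B, hk L S0 i x y ^ 2)
                (fun i _ => sum_nonneg fun y _ => sq_nonneg _) (mem_range.2 (hs x hx).1)
            have h7 : Real.exp (η * t) * Real.exp (-(η * t)) = 1 := by
              rw [← Real.exp_add, add_neg_cancel, Real.exp_zero]
            have h8 : 1 / 4 * Real.exp (-(η * t)) ≤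
                ∑ i ∈ range t, ∑ y ∈ B, hk L S0 i x y ^ 2 := by linarith
            have h9 := mul_le_mul_of_nonneg_left h8 (Real.exp_pos (η * t)).le
            calc (1 / 4 : ℝ) = Real.exp (η * t) * (1 / 4 * Real.exp (-(η * t))) := by
                  rw [mul_left_comm, h7]
                  ring
              _ ≤ _ := h9
      have h4 : ∑ x ∈ V, Real.exp (η * t) * ∑ i ∈ range t, ∑ y ∈ B, hk L S0 i x y ^ 2 ≤
          Real.exp (η * t) * (t * B.card) := by
        rw [← mul_sum]
        apply mul_le_mul_of_nonneg_left _ (Real.exp_pos _).le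
        calc ∑ x ∈ V, ∑ i ∈ range t, ∑ y ∈ B, hk L S0 i x y ^ 2 ≤
              ∑ x, ∑ i ∈ range t, ∑ y ∈ B, hk L S0 i x y ^ 2 :=
              sum_le_univ_sum_of_nonneg fun x => sum_nonneg fun i _ => sum_nonneg fun y _ =>
                sq_nonneg _
          _ = ∑ i ∈ range t, ∑ y ∈ B, ∑ x, hk L S0 i x y ^ 2 := by
              rw [sum_comm]
              exact sum_congr rfl fun i _ => sum_comm
          _ ≤ ∑ _i ∈ range t, ∑ _y ∈ B, (1 : ℝ) :=
              sum_le_sum fun i _ => sum_le_sum fun y _ => hk_col_sq L S0 hS0 i y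
          _ = t * B.card := by simp
      have h5 := h3.trans h4
      nlinarith
    obtain ⟨x, hx, hxB⟩ := hex
    obtain ⟨hst, hret, hen⟩ := hs x hx
    obtain ⟨a, ha⟩ : ∃ a, a = ret L S0 (s x) x := ⟨_, rfl⟩
    rw [← ha] at hxB hret hen
    have ha0 : 0 < a := lt_trans (Real.exp_pos _) hret
    obtain ⟨v, hv⟩ : ∃ v : X → ℝ, ∀ y, v y = hk L S0 (s x) x y / Real.sqrt a := ⟨_, fun _ => rfl⟩
    have hv0 : ∀ y, 0 ≤ v y := fun y => by
      rw [hv]
      exact div_nonneg (hk_nn L S0 hS0 _ _ _) (Real.sqrt_nonneg _)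
    have hvsq : ∀ y, v y ^ 2 = hk L S0 (s x) x y ^ 2 / a := fun y => by
      rw [hv, div_pow, Real.sq_sqrt ha0.le]
    have hv1 : ∑ y, v y ^ 2 = 1 := by
      rw [sum_congr rfl fun y _ => hvsq y, ← sum_div]
      have : ∑ y, hk L S0 (s x) x y ^ 2 = a := by
        rw [ha]
        rfl
      rw [this, div_self ha0.ne']
    have hE : ∑ l, S0 l * ∑ y, (v y - v (L.act l y)) ^ 2 ≤ η / θ := by
      rw [le_div_iff₀ hθ]
      have h3 : ∑ l, S0 l * ∑ y, (v y - v (L.act l y)) ^ 2 =
          (∑ l, S0 l * ∑ y, (hk L S0 (s x) x y - hk L S0 (s x) x (L.act l y)) ^ 2) / a := by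
        rw [sum_div]
        apply sum_congr rfl
        intro l _
        rw [mul_div_assoc, sum_div]
        congr 1
        apply sum_congr rfl
        intro y _
        rw [hv, hv, ← sub_div, div_pow, Real.sq_sqrt ha0.le]
      rw [h3, div_mul_eq_mul_div, div_le_iff₀ ha0, mul_comm]
      exact hen
    have hd : ∀ k, ∑ l, S k l * ∑ y, (v y - v (L.act l y)) ^ 2 ≤ K * (η / θ) := by
      intro k
      calc ∑ l, S k l * ∑ y, (v y - v (L.act l y)) ^ 2 ≤
            ∑ l, K * (S0 l * ∑ y, (v y - v (L.act l y)) ^ 2) := by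
            apply sum_le_sum
            intro l _
            by_cases hl : l = L.e
            · rw [hl, L.act_e]
              simp
            · rw [← mul_assoc]
              exact mul_le_mul_of_nonneg_right (hK k l hl) (sum_nonneg fun y _ => sq_nonneg _)
        _ = K * ∑ l, S0 l * ∑ y, (v y - v (L.act l y)) ^ 2 := (mul_sum _ _ _).symm
        _ ≤ _ := mul_le_mul_of_nonneg_left hE hK0
    have hA : 3 / 4 ≤ ∑ y with y ∉ B, v y ^ 2 := by
      have h3 : ∑ y ∈ B, v y ^ 2 ≤ 1 / 4 := by
        rw [sum_congr rfl fun y _ => hvsq y, ← sum_div, div_le_iff₀ ha0]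
        exact hxB
      have h4 : ∑ y with y ∉ B, v y ^ 2 + ∑ y ∈ B, v y ^ 2 = 1 := by
        rw [← hv1, ← sum_filter_add_sum_filter_not univ (fun y => y ∉ B) fun y => v y ^ 2]
        congr 1
        apply sum_congr _ fun _ _ => rfl
        ext y
        simp
      linarith
    have hsumd : ∑ _k : Fin M, K * (η / θ) = M * (K * (η / θ)) := by
      rw [sum_const, card_univ, Fintype.card_fin, nsmul_eq_mul]
    have hsumJ : (∑ k : Fin M, if J k then K * (η / θ) else 0) =
        (univ.filter fun k => J k = true).card * (K * (η / θ)) := by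
      rw [← sum_filter, sum_const, nsmul_eq_mul]
    have hmet := metropolisG L hθ S hS v hv0 hv1 (fun _ => K * (η / θ)) hd J Bad hBad
      (fun y => y ∉ B) hA G (hG v hv0 hv1 hd) (by rw [hsumJ]; exact h2)
    rw [hsumd] at hmet
    have hcard : ((univ.filter fun y => 0 < v y).card : ℝ) ≤ (Fintype.card Lam : ℝ) ^ t := by
      have h3 : (univ.filter fun y => 0 < v y) ⊆ univ.filter fun y => hk L S0 (s x) x y ≠ 0 := by
        intro y hy
        rw [mem_filter] at hy ⊢
        refine ⟨mem_univ _, fun h => ?_⟩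
        rw [hv, h, zero_div] at hy
        exact lt_irrefl _ hy.2
      have h4 : (univ.filter fun y => 0 < v y).card ≤ Fintype.card Lam ^ s x :=
        (card_le_card h3).trans (card_supp L S0 (s x) x)
      have hl : 1 ≤ Fintype.card Lam := Fintype.card_pos_iff.2 ⟨L.e⟩
      have h5 : Fintype.card Lam ^ s x ≤ Fintype.card Lam ^ t := Nat.pow_le_pow_right hl hst.le
      exact_mod_cast h4.trans h5
    have hup : ∑ y with y ∉ B, v y ^ 2 * ∑ ls : Fin M → Lam with
        (¬ Bad ls ∧ G y ls ∧ 0 < v (pos L M ls y)), ∏ k, S k (ls k) ≤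
        (Fintype.card Lam : ℝ) ^ t * Real.sqrt ρ := by
      calc _ ≤ ∑ y with y ∉ B, v y ^ 2 * ((Fintype.card Lam : ℝ) ^ t * Real.sqrt ρ) := by
            apply sum_le_sum
            intro y hy
            apply mul_le_mul_of_nonneg_left _ (sq_nonneg _)
            rw [mem_filter, hB, mem_filter] at hy
            have hRy : RRG L S J Bad G y ≤ ρ := by
              by_contra h
              push Not at h
              exact hy.2 ⟨mem_univ _, h⟩
            refine (reach_leG L S hS J Bad G y hRy fun z => 0 < v z).trans ?_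
            exact mul_le_mul_of_nonneg_right hcard (Real.sqrt_nonneg _)
        _ = (∑ y with y ∉ B, v y ^ 2) * ((Fintype.card Lam : ℝ) ^ t * Real.sqrt ρ) :=
            (sum_mul _ _ _).symm
        _ ≤ 1 * ((Fintype.card Lam : ℝ) ^ t * Real.sqrt ρ) := by
            apply mul_le_mul_of_nonneg_right _ (by positivity)
            rw [← hv1]
            exact sum_le_univ_sum_of_nonneg fun y => sq_nonneg _
        _ = _ := one_mul _
    linarith
  -- conclusion
  have hret1 : ∀ x, ret L S0 t x ≤ 1 := fun x => by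
    rw [← ret_zero L S0 x]
    exact ret_anti L S0 hS0 hθ.le x (Nat.zero_le t)
  calc ∑ x, ret L S0 t x = ∑ x ∈ V, ret L S0 t x + ∑ x with ¬ Real.exp (-(η * t)) <
        ret L S0 t x, ret L S0 t x := by
        rw [hV, sum_filter_add_sum_filter_not]
    _ ≤ ∑ _x ∈ V, (1 : ℝ) + ∑ x with ¬ Real.exp (-(η * t)) < ret L S0 t x,
        Real.exp (-(η * t)) := by
        apply add_le_add (sum_le_sum fun x _ => hret1 x)
        apply sum_le_sum
        intro x hx
        rw [mem_filter] at hx
        exact not_lt.1 hx.2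
    _ ≤ V.card + Fintype.card X * Real.exp (-(η * t)) := by
        rw [sum_const, sum_const, nsmul_eq_mul, nsmul_eq_mul, mul_one]
        have h3 : ((univ.filter fun x => ¬ Real.exp (-(η * t)) < ret L S0 t x).card : ℝ) ≤
            Fintype.card X := by
          exact_mod_cast card_le_univ _
        have h4 := mul_le_mul_of_nonneg_right h3 (Real.exp_pos (-(η * t))).le
        linarith
    _ ≤ 4 * t * Real.exp (η * t) * (r / ρ * Fintype.card X) +
        Fintype.card X * Real.exp (-(η * t)) := by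
        have h3 : (0 : ℝ) ≤ 4 * t * Real.exp (η * t) := by positivity
        have h4 := mul_le_mul_of_nonneg_left hBc h3
        linarith
    _ = _ := by ring

end Pool.Agent.Helper73.FS
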