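import Mathlib
import Pool.Agent.Helper91.FS.Goals
import Pool.Agent.Helper69.NF.ORBK

/-!
# Packet FS-ORBT (MP_0130f7_co)
-/

set_option autoImplicit false

namespace Pool.Agent.Helper73.FS

open Finset
open Pool.Agent.Helper47.SR (Grp mv lev wt Ew W IsInv up dn StarAt HalfStarAt)
open Pool.Agent.Helper49.NF
open Pool.Agent.Helper91.FS
open Pool.Agent.Helper69.NF (orb mem_els mem_orb self_mem_orb orb_eq card_els rep rep_mem rep_eq
  small_sets)

variable {n : ℕ}

theorem card_le_T (H : Grp n) (T : Finset (Fin n)) (L : ℕ) (hL : pst H T ≤ L) :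
    Nat.card H ≤ L * ∏ x ∈ T, #(orb H x) := by
  classical
  rw [← card_els]
  have h1 : #(Fintype.piFinset fun x : {x // x ∈ T} => orb H x.1) = ∏ x ∈ T, #(orb H x) := by
    rw [Fintype.card_piFinset]
    exact Finset.prod_coe_sort T (fun x => #(orb H x))
  rw [← h1]
  refine Finset.card_le_mul_card_image_of_maps_to
    (f := fun (γ : Equiv.Perm (Fin n)) (x : {x // x ∈ T}) => γ x.1) ?_ L ?_
  · intro γ hγ
    rw [Fintype.mem_piFinset]
    intro x
    exact (mem_orb H x.1 _).2 ⟨γ, (mem_els H γ).1 hγ, rfl⟩
  · intro b _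
    rcases Finset.eq_empty_or_nonempty
      ((els H).filter (fun γ => (fun x : {x // x ∈ T} => γ x.1) = b)) with he | ⟨g, hg⟩
    · rw [he]; simp
    · rw [mem_filter] at hg
      refine le_trans ?_ hL
      unfold pst
      apply Finset.card_le_card_of_injOn (fun γ => g⁻¹ * γ)
      · intro γ hγ
        simp only [Finset.coe_filter, Set.mem_ofPred_eq, mem_els] at hγ ⊢
        refine ⟨H.mul_mem (H.inv_mem ((mem_els H g).1 hg.1)) hγ.1, fun x hx => ?_⟩
        have e1 := congrFun hγ.2 ⟨x, hx⟩
        have e2 := congrFun hg.2 ⟨x, hx⟩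
        simp only at e1 e2
        rw [Equiv.Perm.mul_apply, e1, ← e2]
        simp
      · intro a _ b _ hab
        exact mul_left_cancel hab

theorem goal_ORBT : Goal_ORBT := by
  classical
  intro t n L s b j H ht hL hL1 hb hs1 hs
  refine le_trans ?_ (small_sets (n := n) (t - 1 + j / b))
  unfold inv
  apply Finset.card_le_card_of_injOn (fun A => A.image (rep H))
  · intro A hA
    simp only [Finset.coe_filter, Set.mem_ofPred_eq, mem_powersetCard, mem_univ, true_and] at hA ⊢
    obtain ⟨⟨_, hcard⟩, hinv⟩ := hA
    have hsub : ∀ x ∈ A, orb H x ⊆ A := by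
      intro x hx y hy
      obtain ⟨g, hg, rfl⟩ := (mem_orb H x y).1 hy
      have := hinv g hg
      rw [← this]
      simp [hx]
    have hrep : ∀ z ∈ A.image (rep H), ∃ x ∈ A, z = rep H x ∧ orb H z = orb H x := by
      intro z hz
      rw [mem_image] at hz
      obtain ⟨x, hx, rfl⟩ := hz
      exact ⟨x, hx, rfl, orb_eq H x _ (rep_mem H x)⟩
    -- small orbits
    have hs1' : #((A.image (rep H)).filter (fun z => #(orb H z) < b)) ≤ t - 1 := by
      by_contra hcon
      push Not at hcon
      obtain ⟨T, hT, hTc⟩ := Finset.exists_subset_card_eq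
        (show t ≤ #((A.image (rep H)).filter (fun z => #(orb H z) < b)) by omega)
      have h1 := card_le_T H T L (hL T hTc)
      have h2 : ∏ x ∈ T, #(orb H x) ≤ (b - 1) ^ t := by
        rw [← hTc]
        apply Finset.prod_le_pow_card
        intro x hx
        have := (mem_filter.1 (hT hx)).2
        omega
      have h3 : (b - 1) ^ t < b ^ t := Nat.pow_lt_pow_left (by omega) (by omega)
      have h4 : L * ∏ x ∈ T, #(orb H x) ≤ L * (b - 1) ^ t := Nat.mul_le_mul_left _ h2
      have h5 : L * (b - 1) ^ t < L * b ^ t := Nat.mul_lt_mul_of_pos_left h3 (by omega)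
      omega
    -- large orbits
    have hs2' : #((A.image (rep H)).filter (fun z => ¬ #(orb H z) < b)) ≤ j / b := by
      rw [Nat.le_div_iff_mul_le (by omega)]
      have h1 : ∑ _z ∈ (A.image (rep H)).filter (fun z => ¬ #(orb H z) < b), b ≤
          ∑ z ∈ (A.image (rep H)).filter (fun z => ¬ #(orb H z) < b),
            #(A.filter (fun x => rep H x = z)) := by
        apply Finset.sum_le_sum
        intro z hz
        rw [mem_filter] at hz
        obtain ⟨x, hx, rfl, hxo⟩ := hrep z hz.1
        refine le_trans (not_lt.1 hz.2) ?_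
        rw [hxo]
        apply Finset.card_le_card
        intro y hy
        rw [mem_filter]
        exact ⟨hsub x hx hy, rep_eq H y x (orb_eq H x y hy)⟩
      have h2 : ∑ z ∈ (A.image (rep H)).filter (fun z => ¬ #(orb H z) < b),
            #(A.filter (fun x => rep H x = z)) ≤
          ∑ z ∈ A.image (rep H), #(A.filter (fun x => rep H x = z)) :=
        Finset.sum_le_sum_of_subset (Finset.filter_subset _ _)
      have h3 : #A = ∑ z ∈ A.image (rep H), #(A.filter (fun x => rep H x = z)) := by
        apply Finset.card_eq_sum_card_fiberwise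
        intro x hx
        exact Finset.mem_coe.2 (Finset.mem_image_of_mem _ hx)
      rw [Finset.sum_const, smul_eq_mul] at h1
      rw [← hcard, h3]
      exact h1.trans h2
    have h4 := Finset.card_filter_add_card_filter_not (s := A.image (rep H))
      (fun z => #(orb H z) < b)
    rw [← h4]
    exact add_le_add hs1' hs2'
  · intro A hA B hB hAB
    simp only [Finset.coe_filter, Set.mem_ofPred_eq, mem_powersetCard] at hA hB
    have key : ∀ C D : Finset (Fin n), (∀ γ ∈ H, mv γ D = D) →
        C.image (rep H) = D.image (rep H) → C ⊆ D := by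
      intro C D hD hCD x hx
      have h1 : rep H x ∈ D.image (rep H) := by
        rw [← hCD]
        exact mem_image_of_mem _ hx
      rw [mem_image] at h1
      obtain ⟨y, hy, hyx⟩ := h1
      have h2 : orb H (rep H x) = orb H x := orb_eq H x _ (rep_mem H x)
      have h3 : orb H (rep H y) = orb H y := orb_eq H y _ (rep_mem H y)
      have h4 : x ∈ orb H y := by
        rw [← h3, hyx, h2]
        exact self_mem_orb H x
      obtain ⟨g, hg, rfl⟩ := (mem_orb H y x).1 h4
      have := hD g hg
      rw [← this]
      simp [hy]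
    exact Finset.Subset.antisymm (key A B hB.2 hAB) (key B A hA.2 hAB.symm)

end Pool.Agent.Helper73.FS
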